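import Pool.Agent.Q64.EI.Oo
import Pool.Agent.Q64.EI.Hom

/-!
Project EI (helper64), row MP_2f98db_ag: commutation lemmas for `actE`, `ne` and `InW`.
-/

set_option autoImplicit false

open Finset MvPolynomial

namespace Pool.Agent.Q64.EI.Act

open Pool.Agent.Q64.EI Pool.Agent.Q64.EI.Oo

variable {d n : ℕ} (A : Matrix (Fin (d + 1)) (Fin (n + 1)) ℂ) (u : Fin (n + 1) → ℂ)

/-- Multiplication by a function without `z` commutes with the action. -/
theorem actE_com {c : Fld d n} (hc : ∀ k, fder (Sum.inr k) c = 0) (Q : DZ (n + 1)) (g : Fld d n) :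
    actE A Q (c * g) = c * actE A Q g := by
  revert g
  refine dz_induction (P := fun Q => ∀ g : Fld d n, actE A Q (c * g) = c * actE A Q g)
    ?_ ?_ ?_ ?_ ?_ Q
  · intro j g
    rw [actE_zz, LinearMap.mulLeft_apply, LinearMap.mulLeft_apply]
    ring
  · intro j g
    rw [actE_dd, de_apply, de_apply, Derivation.leibniz, hc]
    simp only [smul_eq_mul]
    ring
  · intro r g
    rw [AlgHom.commutes, Module.algebraMap_end_apply, Module.algebraMap_end_apply, mul_smul_comm]
  · intro a b ha hb g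
    have e : actE A (a * b) = actE A a * actE A b := map_mul _ a b
    rw [e, Module.End.mul_apply, Module.End.mul_apply, hb, ha]
  · intro a b ha hb g
    rw [map_add, LinearMap.add_apply, LinearMap.add_apply, ha, hb, mul_add]

theorem fder_tt_inr (i : Fin (d + 1)) (k : Fin (n + 1)) : fder (Sum.inr k) (tt d n i) = 0 := by
  rw [fder_tt, if_neg (by simp)]

theorem fder_yy_inr (j k : Fin (n + 1)) : fder (Sum.inr k) (yy A j) = 0 := by
  rw [yy, fder_inv, fder_el_inr, zero_mul, neg_zero]

theorem actE_tt (Q : DZ (n + 1)) (i : Fin (d + 1)) (g : Fld d n) :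
    actE A Q (tt d n i * g) = tt d n i * actE A Q g := actE_com A (fder_tt_inr i) Q g

theorem actE_yy (Q : DZ (n + 1)) (j : Fin (n + 1)) (g : Fld d n) :
    actE A Q (yy A j * g) = yy A j * actE A Q g := actE_com A (fder_yy_inr A j) Q g

theorem actE_mul (P Q : DZ (n + 1)) (g : Fld d n) :
    actE A (P * Q) g = actE A P (actE A Q g) := by
  have e : actE A (P * Q) = actE A P * actE A Q := map_mul _ P Q
  rw [e, Module.End.mul_apply]

/-- The operators `∇_i` and multiplication by `y_j`. -/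
theorem yne (hcol : ∀ j, ∃ i, A i j ≠ 0) (j : Fin (n + 1)) (i : Fin (d + 1)) (g : Fld d n) :
    yy A j * ne A u i g = ne A (tr u j 1) i (yy A j * g) := by
  have h1 : oe A (tr u j 1) i = oe A u i + fder (Sum.inl i) (el A j) / el A j := by
    rw [oe, oe, add_assoc]
    congr 1
    have h2 : ∀ k, tr u j 1 k • (fder (Sum.inl i) (el A k) / el A k) =
        u k • (fder (Sum.inl i) (el A k) / el A k) +
          if k = j then fder (Sum.inl i) (el A k) / el A k else 0 := by
      intro k
      rw [tr, add_smul]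
      split_ifs
      · rw [Nat.cast_one, one_smul]
      · rw [zero_smul]
    simp only [h2, Finset.sum_add_distrib]
    rw [Finset.sum_ite_eq' univ j, if_pos (Finset.mem_univ j)]
  have hj := el_ne A hcol j
  rw [ne_apply, ne_apply, h1, Derivation.leibniz, yy, fder_inv]
  simp only [smul_eq_mul]
  field_simp
  ring

theorem tr_tr {n : ℕ} (u : Fin (n + 1) → ℂ) (j : Fin (n + 1)) (k l : ℕ) :
    tr (tr u j k) j l = tr u j (k + l) := by
  funext i
  simp only [tr]
  split_ifs
  · push_cast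
    ring
  · ring

theorem tr_zero {n : ℕ} (u : Fin (n + 1) → ℂ) (j : Fin (n + 1)) : tr u j 0 = u := by
  funext i
  simp [tr]

variable {A u}

theorem inW_add {a b : Fld d n} (ha : InW A u a) (hb : InW A u b) : InW A u (a + b) := by
  obtain ⟨h, h', hh, hh', rfl⟩ := ha
  obtain ⟨k, k', hk, hk', rfl⟩ := hb
  refine ⟨fun i => h i + k i, h' + k', fun i => (VV A).add_mem (hh i) (hk i),
    (VV A).add_mem hh' hk', ?_⟩
  rw [← Finset.sum_add_distrib]
  refine Finset.sum_congr rfl fun i _ => ?_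
  rw [← map_add]
  congr 1
  ring

theorem inW_zero : InW A u 0 :=
  ⟨fun _ => 0, 0, fun _ => (VV A).zero_mem, (VV A).zero_mem, by simp⟩

theorem inW_smul (c : ℂ) {a : Fld d n} (ha : InW A u a) : InW A u (c • a) := by
  obtain ⟨h, h', hh, hh', rfl⟩ := ha
  refine ⟨fun i => c • h i, c • h', fun i => (VV A).smul_mem (hh i) c,
    (VV A).smul_mem hh' c, ?_⟩
  rw [Finset.smul_sum]
  refine Finset.sum_congr rfl fun i _ => ?_
  rw [← map_smul, smul_add, mul_smul_comm]

theorem inW_neg {a : Fld d n} (ha : InW A u a) : InW A u (-a) := by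
  have := inW_smul (-1) ha
  rwa [neg_one_smul] at this

theorem inW_sub {a b : Fld d n} (ha : InW A u a) (hb : InW A u b) : InW A u (a - b) := by
  rw [sub_eq_add_neg]
  exact inW_add ha (inW_neg hb)

theorem vv_act (heva : S_eva) (hcol : ∀ j, ∃ i, A i j ≠ 0) (Q : DZ (n + 1)) {g : Fld d n}
    (hg : g ∈ VV A) : actE A Q g ∈ VV A := by
  obtain ⟨Q', rfl⟩ := (heva A hcol).2.1 g hg
  rw [← actE_mul]
  exact (heva A hcol).1 _

theorem inW_act (heva : S_eva) (hcol : ∀ j, ∃ i, A i j ≠ 0) (Q : DZ (n + 1)) {a : Fld d n}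
    (ha : InW A u a) : InW A u (actE A Q a) := by
  obtain ⟨h, h', hh, hh', rfl⟩ := ha
  refine ⟨fun i => actE A Q (h i), actE A Q h', fun i => vv_act heva hcol Q (hh i),
    vv_act heva hcol Q hh', ?_⟩
  rw [map_sum]
  refine Finset.sum_congr rfl fun i _ => ?_
  rw [← ne_actE, map_add, actE_tt]

theorem yy_vv (j : Fin (n + 1)) : yy A j ∈ VV A := Algebra.subset_adjoin (Or.inr ⟨j, rfl⟩)

theorem zv_vv (j : Fin (n + 1)) : zv d n j ∈ VV A := Algebra.subset_adjoin (Or.inl ⟨j, rfl⟩)

/-- Multiplication by `y_j` maps `W(u)` into `W(u + e_j)`. -/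
theorem inW_yy (hcol : ∀ j, ∃ i, A i j ≠ 0) (j : Fin (n + 1)) {a : Fld d n} (ha : InW A u a) :
    InW A (tr u j 1) (yy A j * a) := by
  obtain ⟨h, h', hh, hh', rfl⟩ := ha
  refine ⟨fun i => yy A j * h i, yy A j * h', fun i => (VV A).mul_mem (yy_vv j) (hh i),
    (VV A).mul_mem (yy_vv j) hh', ?_⟩
  rw [Finset.mul_sum]
  refine Finset.sum_congr rfl fun i _ => ?_
  rw [yne A u hcol j i]
  congr 1
  ring

theorem nonres_tr {u : Fin (n + 1) → ℂ} (hu : NonRes u) (j : Fin (n + 1)) (k : ℕ) :
    NonRes (tr u j k) := by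
  intro S hS m h
  simp only [tr, Finset.sum_add_distrib] at h
  rw [Finset.sum_ite_eq'] at h
  split_ifs at h with h1
  · apply hu S hS (m - k)
    push_cast
    linear_combination h
  · apply hu S hS m
    linear_combination h

end Pool.Agent.Q64.EI.Act
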