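import Pool.Agent.Q64.EI.Bas

/-!
Project EI (helper64), row MP_2f98db_ag: the twisted de Rham complex and `M_L^hyp(u)`.
-/

set_option autoImplicit false

open Finset MvPolynomial

namespace Pool.Agent.Q64.EI

/-! ### Generalities -/

theorem der_ext {d n : ℕ} {D1 D2 : Derivation ℂ (Fld d n) (Fld d n)}
    (h : ∀ p : Pol d n, D1 (algebraMap (Pol d n) (Fld d n) p) =
      D2 (algebraMap (Pol d n) (Fld d n) p)) : D1 = D2 := by
  ext g
  obtain ⟨a, b, hb, rfl⟩ := IsFractionRing.div_surjective (A := Pol d n) g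
  have hb0 : algebraMap (Pol d n) (Fld d n) b ≠ 0 := by
    intro h0
    exact nonZeroDivisors.ne_zero hb (IsFractionRing.injective (Pol d n) (Fld d n)
      (by rw [h0, map_zero]))
  have key : ∀ D : Derivation ℂ (Fld d n) (Fld d n),
      D (algebraMap (Pol d n) (Fld d n) a / algebraMap (Pol d n) (Fld d n) b) =
        (D (algebraMap (Pol d n) (Fld d n) a) - algebraMap (Pol d n) (Fld d n) a /
          algebraMap (Pol d n) (Fld d n) b * D (algebraMap (Pol d n) (Fld d n) b)) /
          algebraMap (Pol d n) (Fld d n) b := by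
    intro D
    have h1 : algebraMap (Pol d n) (Fld d n) a = algebraMap (Pol d n) (Fld d n) b *
        (algebraMap (Pol d n) (Fld d n) a / algebraMap (Pol d n) (Fld d n) b) := by
      field_simp
    have h2 := congrArg D h1
    rw [Derivation.leibniz] at h2
    simp only [smul_eq_mul] at h2
    rw [h2]
    field_simp
    ring
  rw [key D1, key D2, h a, h b]

theorem fder_comm {d n : ℕ} (v w : Fin (d + 1) ⊕ Fin (n + 1)) (g : Fld d n) :
    fder v (fder w g) = fder w (fder v g) := by
  have h1 : ⁅(fder v : Derivation ℂ (Fld d n) (Fld d n)), fder w⁆ = 0 := by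
    apply der_ext
    intro p
    rw [Derivation.commutator_apply, fder_map, fder_map, fder_map, fder_map]
    have h2 : (⁅(pderiv v : Derivation ℂ (Pol d n) (Pol d n)),
        (pderiv w : Derivation ℂ (Pol d n) (Pol d n))⁆) = 0 := by
      apply MvPolynomial.derivation_ext
      intro i
      rw [Derivation.commutator_apply]
      simp [pderiv_X, Pi.single_apply, apply_ite]
    have h3 := DFunLike.congr_fun h2 p
    rw [Derivation.commutator_apply] at h3
    rw [← map_sub, h3]
    simp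
  have h4 := DFunLike.congr_fun h1 g
  rw [Derivation.commutator_apply] at h4
  exact sub_eq_zero.1 h4

/-- The Weyl algebra is generated by the `z_j` and the `∂_j`. -/
theorem dz_top {m : ℕ} (S : Subalgebra ℂ (DZ m)) (hz : ∀ j, zz j ∈ S) (hd' : ∀ j, dd j ∈ S) :
    S = ⊤ := by
  rw [eq_top_iff]
  rintro Q -
  obtain ⟨x, rfl⟩ := RingQuot.mkAlgHom_surjective ℂ (WRel m) Q
  induction x using FreeAlgebra.induction with
  | grade0 r => rw [AlgHom.commutes]; exact S.algebraMap_mem r
  | grade1 x =>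
    rcases x with j | j
    · exact hz j
    · exact hd' j
  | mul a b ha hb => rw [map_mul]; exact S.mul_mem ha hb
  | add a b ha hb => rw [map_add]; exact S.add_mem ha hb

theorem dz_induction {m : ℕ} {P : DZ m → Prop} (hz : ∀ j, P (zz j)) (hd' : ∀ j, P (dd j))
    (hc : ∀ c : ℂ, P (algebraMap ℂ (DZ m) c)) (hm : ∀ a b, P a → P b → P (a * b))
    (ha : ∀ a b, P a → P b → P (a + b)) (Q : DZ m) : P Q := by
  let S : Subalgebra ℂ (DZ m) :=
    { carrier := {Q | P Q}
      mul_mem' := fun h1 h2 => hm _ _ h1 h2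
      add_mem' := fun h1 h2 => ha _ _ h1 h2
      algebraMap_mem' := hc }
  have : Q ∈ S := by
    rw [dz_top S hz hd']
    trivial
  exact this

/-! ### The functions of the problem -/

/-- The rational function `t_i`. -/
noncomputable def tt (d n : ℕ) (i : Fin (d + 1)) : Fld d n :=
  algebraMap (Pol d n) (Fld d n) (X (Sum.inl i))

/-- The rational function `z_j`. -/
noncomputable def zv (d n : ℕ) (j : Fin (n + 1)) : Fld d n :=
  algebraMap (Pol d n) (Fld d n) (X (Sum.inr j))

section Fun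

variable {d n : ℕ} (A : Matrix (Fin (d + 1)) (Fin (n + 1)) ℂ) (u : Fin (n + 1) → ℂ)

/-- The linear form `ℓ_j = ∑ a_ij t_i`. -/
noncomputable def el (j : Fin (n + 1)) : Fld d n := ∑ i, A i j • tt d n i

/-- The function `f = ∑ z_j / ℓ_j`. -/
noncomputable def ff : Fld d n := ∑ j, zv d n j / el A j

/-- The ring of rational functions in `(t, z)` with poles only along `f = 0` and
`ℓ_0 ⋯ ℓ_n = 0`: it is generated by the `t_i`, the `z_j`, the `1/ℓ_j` and `1/f`. -/
noncomputable def RR : Subalgebra ℂ (Fld d n) :=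
  Algebra.adjoin ℂ (Set.range (tt d n) ∪ Set.range (zv d n) ∪
    Set.range (fun j => (el A j)⁻¹) ∪ {(ff A)⁻¹})

/-- The rational function `g` is homogeneous of degree `q` in `t` (Euler's relation). -/
def TDeg {d n : ℕ} (q : ℤ) (g : Fld d n) : Prop :=
  ∑ i, tt d n i * fder (Sum.inl i) g = (q : Fld d n) * g

/-- The coefficient of `dt_i` in `ω = -(s + d + 1) d_t f / f + ∑ u_j d_t ℓ_j / ℓ_j`. -/
noncomputable def om (i : Fin (d + 1)) : Fld d n :=
  (-(sp d u + d + 1)) • (fder (Sum.inl i) (ff A) / ff A) +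
    ∑ j, u j • (fder (Sum.inl i) (el A j) / el A j)

/-- The operator `∂/∂t_i + ω_i`. -/
noncomputable def nb (i : Fin (d + 1)) : Module.End ℂ (Fld d n) :=
  (fder (Sum.inl i) : Derivation ℂ (Fld d n) (Fld d n)).toLinearMap +
    LinearMap.mulLeft ℂ (om A u i)

theorem nb_apply (i : Fin (d + 1)) (g : Fld d n) :
    nb A u i g = fder (Sum.inl i) g + om A u i * g := rfl

/-- The coefficient of the operator `∂_j •`: `-(s + d + 1) (∂_j f) / f`. -/
noncomputable def bj (j : Fin (n + 1)) : Fld d n :=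
  (-(sp d u + d + 1)) • (fder (Sum.inr j) (ff A) / ff A)

/-- The operator `g ↦ ∂g/∂z_j - (s + d + 1) (∂_j f / f) g`. -/
noncomputable def dop (j : Fin (n + 1)) : Module.End ℂ (Fld d n) :=
  (fder (Sum.inr j) : Derivation ℂ (Fld d n) (Fld d n)).toLinearMap +
    LinearMap.mulLeft ℂ (bj A u j)

theorem dop_apply (j : Fin (n + 1)) (g : Fld d n) :
    dop A u j g = fder (Sum.inr j) g + bj A u j * g := rfl

theorem fder_tt (v : Fin (d + 1) ⊕ Fin (n + 1)) (i : Fin (d + 1)) :
    fder v (tt d n i) = if v = Sum.inl i then 1 else 0 := by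
  rw [tt, fder_map, pderiv_X, Pi.single_apply]
  by_cases h : v = Sum.inl i
  · rw [if_pos h, if_pos h.symm, map_one]
  · rw [if_neg h, if_neg (Ne.symm h), map_zero]

theorem fder_zv (v : Fin (d + 1) ⊕ Fin (n + 1)) (j : Fin (n + 1)) :
    fder v (zv d n j) = if v = Sum.inr j then 1 else 0 := by
  rw [zv, fder_map, pderiv_X, Pi.single_apply]
  by_cases h : v = Sum.inr j
  · rw [if_pos h, if_pos h.symm, map_one]
  · rw [if_neg h, if_neg (Ne.symm h), map_zero]

theorem fder_div (v : Fin (d + 1) ⊕ Fin (n + 1)) (a b : Fld d n) :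
    fder v (a / b) = fder v a / b - a * fder v b / b ^ 2 := by
  by_cases hb : b = 0
  · subst hb
    simp
  · have h1 : a = b * (a / b) := by field_simp
    have h2 : fder v a = b * fder v (a / b) + (a / b) * fder v b := by
      conv_lhs => rw [h1, Derivation.leibniz]
      simp [smul_eq_mul]
    rw [h2]
    field_simp
    ring

theorem log_symm (v w : Fin (d + 1) ⊕ Fin (n + 1)) (g : Fld d n) :
    fder v (fder w g / g) = fder w (fder v g / g) := by
  rw [fder_div, fder_div, fder_comm v w g]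
  ring

theorem bj_symm (i j : Fin (n + 1)) :
    fder (Sum.inr i) (bj A u j) = fder (Sum.inr j) (bj A u i) := by
  rw [bj, bj, Derivation.map_smul, Derivation.map_smul, log_symm]

theorem dop_comm (i j : Fin (n + 1)) : dop A u i * dop A u j = dop A u j * dop A u i := by
  apply LinearMap.ext
  intro g
  simp only [Module.End.mul_apply, dop_apply, map_add, Derivation.leibniz, smul_eq_mul]
  rw [fder_comm (Sum.inr i) (Sum.inr j) g, bj_symm A u i j]
  ring

theorem dop_zv (i j : Fin (n + 1)) : dop A u i * LinearMap.mulLeft ℂ (zv d n j) =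
    LinearMap.mulLeft ℂ (zv d n j) * dop A u i + if i = j then 1 else 0 := by
  apply LinearMap.ext
  intro g
  simp only [Module.End.mul_apply, dop_apply, LinearMap.mulLeft_apply, LinearMap.add_apply,
    Derivation.leibniz, smul_eq_mul, fder_zv, Sum.inr.injEq]
  split_ifs with h
  · simp only [Module.End.one_apply]
    ring
  · simp only [LinearMap.zero_apply]
    ring

/-- The action of the Weyl algebra on rational functions: `z_j` acts by multiplication and
`∂_j • g = ∂g/∂z_j - (s + d + 1) (∂_j f / f) g`. -/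
noncomputable def act : DZ (n + 1) →ₐ[ℂ] Module.End ℂ (Fld d n) :=
  lift (fun j => LinearMap.mulLeft ℂ (zv d n j)) (dop A u)
    (fun i j => by
      apply LinearMap.ext
      intro g
      simp only [Module.End.mul_apply, LinearMap.mulLeft_apply]
      ring)
    (dop_comm A u) (dop_zv A u)

theorem act_zz (j : Fin (n + 1)) : act A u (zz j) = LinearMap.mulLeft ℂ (zv d n j) :=
  lift_zz _ _ _ _ _ j

theorem act_dd (j : Fin (n + 1)) : act A u (dd j) = dop A u j := lift_dd _ _ _ _ _ j

/-- The field of rational functions with this action of the Weyl algebra. -/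
def Fm (_A : Matrix (Fin (d + 1)) (Fin (n + 1)) ℂ) (_u : Fin (n + 1) → ℂ) : Type := Fld d n

noncomputable instance : AddCommGroup (Fm A u) := inferInstanceAs (AddCommGroup (Fld d n))

noncomputable instance : Module (DZ (n + 1)) (Fm A u) :=
  Module.compHom (Fld d n) (act A u).toRingHom

theorem smul_def (Q : DZ (n + 1)) (g : Fm A u) : Q • g = act A u Q g := rfl

/-- Differential forms `∑_I η_I dt_I` with arbitrary rational functions as coefficients. -/
abbrev Om : Type := Finset (Fin (d + 1)) → Fm A u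

theorem el_ne (hcol : ∀ j, ∃ i, A i j ≠ 0) (j : Fin (n + 1)) : el A j ≠ 0 := by
  obtain ⟨i, hi⟩ := hcol j
  intro h0
  have h1 := congrArg (fder (Sum.inl i)) h0
  rw [el, map_sum, map_zero] at h1
  simp only [Derivation.map_smul, fder_tt, Sum.inl.injEq] at h1
  rw [Finset.sum_eq_single i] at h1
  · rw [if_pos rfl] at h1
    have := smul_eq_zero.1 h1
    simp [hi] at this
  · intro b _ hb
    rw [if_neg (Ne.symm hb), smul_zero]
  · simp

theorem fder_el_inr (j k : Fin (n + 1)) : fder (Sum.inr k) (el A j) = 0 := by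
  rw [el, map_sum]
  apply Finset.sum_eq_zero
  intro i _
  rw [Derivation.map_smul, fder_tt, if_neg (by simp), smul_zero]

theorem fder_el_inl (i : Fin (d + 1)) (j : Fin (n + 1)) :
    fder (Sum.inl i) (el A j) = algebraMap ℂ (Fld d n) (A i j) := by
  rw [el, map_sum, Finset.sum_eq_single i]
  · rw [Derivation.map_smul, fder_tt, if_pos rfl, Algebra.algebraMap_eq_smul_one]
  · intro b _ hb
    rw [Derivation.map_smul, fder_tt, if_neg (by simpa using Ne.symm hb), smul_zero]
  · simp

theorem fder_ff_inr (j : Fin (n + 1)) : fder (Sum.inr j) (ff A) = (el A j)⁻¹ := by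
  rw [ff, map_sum, Finset.sum_eq_single j]
  · rw [fder_div, fder_zv, if_pos rfl, fder_el_inr]
    simp
  · intro b _ hb
    rw [fder_div, fder_zv, if_neg (by simpa using Ne.symm hb), fder_el_inr]
    simp
  · simp

theorem fder_ff_inl (i : Fin (d + 1)) :
    fder (Sum.inl i) (ff A) = -∑ j, A i j • (zv d n j * ((el A j)⁻¹) ^ 2) := by
  rw [ff, map_sum, ← Finset.sum_neg_distrib]
  apply Finset.sum_congr rfl
  intro j _
  rw [fder_div, fder_zv, if_neg (by simp), fder_el_inl, Algebra.smul_def]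
  ring

theorem ff_ne (hcol : ∀ j, ∃ i, A i j ≠ 0) : ff A ≠ 0 := by
  intro h0
  have h1 := congrArg (fder (Sum.inr (0 : Fin (n + 1)))) h0
  rw [fder_ff_inr, map_zero] at h1
  exact inv_ne_zero (el_ne A hcol 0) h1

/-! ### Closure properties -/

theorem tt_mem (i : Fin (d + 1)) : tt d n i ∈ RR A :=
  Algebra.subset_adjoin (Or.inl (Or.inl (Or.inl ⟨i, rfl⟩)))

theorem zv_mem (j : Fin (n + 1)) : zv d n j ∈ RR A :=
  Algebra.subset_adjoin (Or.inl (Or.inl (Or.inr ⟨j, rfl⟩)))

theorem eli_mem (j : Fin (n + 1)) : (el A j)⁻¹ ∈ RR A :=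
  Algebra.subset_adjoin (Or.inl (Or.inr ⟨j, rfl⟩))

theorem ffi_mem : (ff A)⁻¹ ∈ RR A := Algebra.subset_adjoin (Or.inr rfl)

theorem el_mem (j : Fin (n + 1)) : el A j ∈ RR A :=
  (RR A).sum_mem fun i _ => (RR A).smul_mem (tt_mem A i) _

theorem ff_mem : ff A ∈ RR A :=
  (RR A).sum_mem fun j _ => by
    rw [div_eq_mul_inv]
    exact (RR A).mul_mem (zv_mem A j) (eli_mem A j)

theorem fder_ff_mem (v : Fin (d + 1) ⊕ Fin (n + 1)) : fder v (ff A) ∈ RR A := by
  rcases v with i | j
  · rw [fder_ff_inl]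
    exact (RR A).neg_mem ((RR A).sum_mem fun j _ => (RR A).smul_mem
      ((RR A).mul_mem (zv_mem A j) ((RR A).pow_mem (eli_mem A j) 2)) _)
  · rw [fder_ff_inr]
    exact eli_mem A j

theorem fder_inv (v : Fin (d + 1) ⊕ Fin (n + 1)) (b : Fld d n) :
    fder v b⁻¹ = -(fder v b * (b⁻¹) ^ 2) := by
  have := fder_div v 1 b
  rw [one_div, Derivation.map_one_eq_zero] at this
  rw [this]
  ring

theorem fder_mem (v : Fin (d + 1) ⊕ Fin (n + 1)) {g : Fld d n} (hg : g ∈ RR A) :
    fder v g ∈ RR A := by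
  induction hg using Algebra.adjoin_induction with
  | mem x hx =>
    rcases hx with ((⟨i, rfl⟩ | ⟨j, rfl⟩) | ⟨j, rfl⟩) | hx
    · rw [fder_tt]; split_ifs
      · exact (RR A).one_mem
      · exact (RR A).zero_mem
    · rw [fder_zv]; split_ifs
      · exact (RR A).one_mem
      · exact (RR A).zero_mem
    · change fder v (el A j)⁻¹ ∈ RR A
      rw [fder_inv]
      refine (RR A).neg_mem ((RR A).mul_mem ?_ ((RR A).pow_mem (eli_mem A j) 2))
      rcases v with i | k
      · rw [fder_el_inl]; exact (RR A).algebraMap_mem _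
      · rw [fder_el_inr]; exact (RR A).zero_mem
    · rw [Set.mem_singleton_iff] at hx
      rw [hx, fder_inv]
      exact (RR A).neg_mem ((RR A).mul_mem (fder_ff_mem A v) ((RR A).pow_mem (ffi_mem A) 2))
  | algebraMap r => rw [Derivation.map_algebraMap]; exact (RR A).zero_mem
  | add x y _ _ hx hy => rw [map_add]; exact (RR A).add_mem hx hy
  | mul x y hx' hy' hx hy =>
    rw [Derivation.leibniz, smul_eq_mul, smul_eq_mul]
    exact (RR A).add_mem ((RR A).mul_mem hx' hy) ((RR A).mul_mem hy' hx)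

theorem bj_mem (j : Fin (n + 1)) : bj A u j ∈ RR A := by
  rw [bj, div_eq_mul_inv]
  exact (RR A).smul_mem ((RR A).mul_mem (fder_ff_mem A _) (ffi_mem A)) _

theorem om_mem (i : Fin (d + 1)) : om A u i ∈ RR A := by
  refine (RR A).add_mem ((RR A).smul_mem ?_ _) ((RR A).sum_mem fun j _ => (RR A).smul_mem ?_ _)
  · rw [div_eq_mul_inv]
    exact (RR A).mul_mem (fder_ff_mem A _) (ffi_mem A)
  · rw [div_eq_mul_inv, fder_el_inl]
    exact (RR A).mul_mem ((RR A).algebraMap_mem _) (eli_mem A j)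

theorem dop_mem (j : Fin (n + 1)) {g : Fld d n} (hg : g ∈ RR A) : dop A u j g ∈ RR A :=
  (RR A).add_mem (fder_mem A _ hg) ((RR A).mul_mem (bj_mem A u j) hg)

theorem nb_mem (i : Fin (d + 1)) {g : Fld d n} (hg : g ∈ RR A) : nb A u i g ∈ RR A :=
  (RR A).add_mem (fder_mem A _ hg) ((RR A).mul_mem (om_mem A u i) hg)

theorem tdeg_add {q : ℤ} {g h : Fld d n} (hg : TDeg q g) (hh : TDeg q h) : TDeg q (g + h) := by
  unfold TDeg at *
  simp only [map_add, mul_add, Finset.sum_add_distrib]
  rw [hg, hh]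

theorem tdeg_zero (q : ℤ) : TDeg q (0 : Fld d n) := by
  unfold TDeg
  simp

theorem tdeg_smul {q : ℤ} {g : Fld d n} (c : ℂ) (hg : TDeg q g) : TDeg q (c • g) := by
  unfold TDeg at *
  simp only [Derivation.map_smul, mul_smul_comm, ← Finset.smul_sum]
  rw [hg]

theorem tdeg_mul {p q : ℤ} {g h : Fld d n} (hg : TDeg p g) (hh : TDeg q h) :
    TDeg (p + q) (g * h) := by
  unfold TDeg at *
  simp only [Derivation.leibniz, smul_eq_mul, mul_add, Finset.sum_add_distrib]
  have h1 : ∑ i, tt d n i * (g * fder (Sum.inl i) h) = g * ∑ i, tt d n i * fder (Sum.inl i) h := by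
    rw [Finset.mul_sum]
    exact Finset.sum_congr rfl fun i _ => by ring
  have h2 : ∑ i, tt d n i * (h * fder (Sum.inl i) g) = h * ∑ i, tt d n i * fder (Sum.inl i) g := by
    rw [Finset.mul_sum]
    exact Finset.sum_congr rfl fun i _ => by ring
  rw [h1, h2, hg, hh]
  push_cast
  ring

theorem tdeg_inv {q : ℤ} {g : Fld d n} (hg : TDeg q g) : TDeg (-q) g⁻¹ := by
  by_cases h0 : g = 0
  · subst h0
    rw [inv_zero]
    exact tdeg_zero _
  unfold TDeg at *
  simp only [fder_inv]
  have h1 : ∑ i, tt d n i * -(fder (Sum.inl i) g * g⁻¹ ^ 2) =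
      -(∑ i, tt d n i * fder (Sum.inl i) g) * g⁻¹ ^ 2 := by
    rw [← Finset.sum_neg_distrib, Finset.sum_mul]
    exact Finset.sum_congr rfl fun i _ => by ring
  rw [h1, hg]
  push_cast
  field_simp

theorem tdeg_zv (j : Fin (n + 1)) : TDeg 0 (zv d n j) := by
  unfold TDeg
  simp [fder_zv]

theorem tdeg_tt (i : Fin (d + 1)) : TDeg 1 (tt d n i) := by
  unfold TDeg
  simp [fder_tt]

theorem tdeg_el (j : Fin (n + 1)) : TDeg 1 (el A j) := by
  unfold TDeg
  simp only [fder_el_inl]
  rw [Pool.Agent.Q64.EI.el, Int.cast_one, one_mul]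
  exact Finset.sum_congr rfl fun i _ => by rw [Algebra.smul_def, mul_comm]

theorem tdeg_sum {ι : Type} {q : ℤ} (s : Finset ι) (g : ι → Fld d n) (h : ∀ i ∈ s, TDeg q (g i)) :
    TDeg q (∑ i ∈ s, g i) := by
  classical
  induction s using Finset.induction_on with
  | empty => rw [Finset.sum_empty]; exact tdeg_zero q
  | insert a s ha ih =>
    rw [Finset.sum_insert ha]
    exact tdeg_add (h a (Finset.mem_insert_self a s))
      (ih fun i hi => h i (Finset.mem_insert_of_mem hi))

theorem tdeg_ff : TDeg (-1) (ff A) := by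
  apply tdeg_sum
  intro j _
  rw [div_eq_mul_inv]
  have := tdeg_mul (tdeg_zv (d := d) j) (tdeg_inv (tdeg_el A j))
  rwa [zero_add] at this

theorem tdeg_fderz {q : ℤ} {g : Fld d n} (hg : TDeg q g) (j : Fin (n + 1)) :
    TDeg q (fder (Sum.inr j) g) := by
  unfold TDeg at *
  have h1 := congrArg (fder (Sum.inr j)) hg
  rw [map_sum, Derivation.leibniz] at h1
  simp only [Derivation.leibniz, smul_eq_mul, fder_tt, reduceCtorEq, if_false, mul_zero,
    add_zero] at h1
  have h2 : fder (Sum.inr j) (q : Fld d n) = 0 := by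
    have := (fder (Sum.inr j) : Derivation ℂ (Fld d n) (Fld d n)).map_algebraMap (q : ℂ)
    rwa [map_intCast] at this
  rw [h2, mul_zero, add_zero] at h1
  rw [← h1]
  exact Finset.sum_congr rfl fun i _ => by rw [fder_comm]

theorem tdeg_fdert {q : ℤ} {g : Fld d n} (hg : TDeg q g) (k : Fin (d + 1)) :
    TDeg (q - 1) (fder (Sum.inl k) g) := by
  unfold TDeg at *
  have h1 := congrArg (fder (Sum.inl k)) hg
  rw [map_sum, Derivation.leibniz] at h1
  simp only [Derivation.leibniz, smul_eq_mul, fder_tt, Sum.inl.injEq, mul_ite, mul_one, mul_zero,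
    Finset.sum_add_distrib, Finset.sum_ite_eq, Finset.mem_univ, if_true] at h1
  have h2 : fder (Sum.inl k) (q : Fld d n) = 0 := by
    have := (fder (Sum.inl k) : Derivation ℂ (Fld d n) (Fld d n)).map_algebraMap (q : ℂ)
    rwa [map_intCast] at this
  rw [h2, mul_zero, add_zero] at h1
  have h3 : ∑ i, tt d n i * fder (Sum.inl i) (fder (Sum.inl k) g) =
      ∑ i, tt d n i * fder (Sum.inl k) (fder (Sum.inl i) g) :=
    Finset.sum_congr rfl fun i _ => by rw [fder_comm]
  rw [h3]
  push_cast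
  linear_combination h1

theorem tdeg_bj (j : Fin (n + 1)) : TDeg 0 (bj A u j) := by
  unfold Pool.Agent.Q64.EI.bj
  apply tdeg_smul
  rw [div_eq_mul_inv, fder_ff_inr]
  have := tdeg_mul (tdeg_inv (tdeg_el A j)) (tdeg_inv (tdeg_ff A))
  simpa using this

theorem tdeg_om (i : Fin (d + 1)) : TDeg (-1) (om A u i) := by
  unfold Pool.Agent.Q64.EI.om
  refine tdeg_add (tdeg_smul _ ?_) (tdeg_sum _ _ fun j _ => tdeg_smul _ ?_)
  · rw [div_eq_mul_inv]
    have := tdeg_mul (tdeg_fdert (tdeg_ff A) i) (tdeg_inv (tdeg_ff A))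
    simpa using this
  · rw [div_eq_mul_inv]
    have := tdeg_mul (tdeg_fdert (tdeg_el A j) i) (tdeg_inv (tdeg_el A j))
    simpa using this

theorem tdeg_dop {q : ℤ} {g : Fld d n} (hg : TDeg q g) (j : Fin (n + 1)) :
    TDeg q (dop A u j g) := by
  rw [dop_apply]
  refine tdeg_add (tdeg_fderz hg j) ?_
  have := tdeg_mul (tdeg_bj A u j) hg
  rwa [zero_add] at this

theorem tdeg_nb {q : ℤ} {g : Fld d n} (hg : TDeg q g) (i : Fin (d + 1)) :
    TDeg (q - 1) (nb A u i g) := by
  rw [nb_apply]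
  refine tdeg_add (tdeg_fdert hg i) ?_
  have := tdeg_mul (tdeg_om A u i) hg
  rwa [neg_add_eq_sub] at this

theorem act_mem {q : ℤ} (Q : DZ (n + 1)) (g : Fld d n) (hg : g ∈ RR A ∧ TDeg q g) :
    act A u Q g ∈ RR A ∧ TDeg q (act A u Q g) := by
  revert g
  refine dz_induction (P := fun Q => ∀ g : Fld d n, g ∈ RR A ∧ TDeg q g →
    act A u Q g ∈ RR A ∧ TDeg q (act A u Q g)) ?_ ?_ ?_ ?_ ?_ Q
  · intro j g hg
    rw [act_zz, LinearMap.mulLeft_apply]
    refine ⟨(RR A).mul_mem (zv_mem A j) hg.1, ?_⟩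
    have := tdeg_mul (tdeg_zv (d := d) j) hg.2
    rwa [zero_add] at this
  · intro j g hg
    rw [act_dd]
    exact ⟨dop_mem A u j hg.1, tdeg_dop A u hg.2 j⟩
  · intro c g hg
    rw [AlgHom.commutes, Module.algebraMap_end_apply]
    exact ⟨(RR A).smul_mem hg.1 c, tdeg_smul c hg.2⟩
  · intro a b ha hb g hg
    rw [map_mul, Module.End.mul_apply]
    exact ha _ (hb _ hg)
  · intro a b ha hb g hg
    rw [map_add, LinearMap.add_apply]
    exact ⟨(RR A).add_mem (ha g hg).1 (hb g hg).1, tdeg_add (ha g hg).2 (hb g hg).2⟩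

/-- The module `Ω^q` of `q`-forms: the coefficients `η_I` are zero unless `|I| = q`, have poles
only along `f = 0` and `ℓ_0 ⋯ ℓ_n = 0`, and are homogeneous of degree `-q` in `t`. -/
def forms (q : ℤ) : Submodule (DZ (n + 1)) (Om A u) where
  carrier := {η | ∀ I : Finset (Fin (d + 1)), ((I.card : ℤ) ≠ q → η I = 0) ∧
    (show Fld d n from η I) ∈ RR A ∧ TDeg (-q) (show Fld d n from η I)}
  add_mem' := fun {a b} ha hb I =>
    ⟨fun h => by rw [Pi.add_apply, (ha I).1 h, (hb I).1 h, add_zero],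
      (RR A).add_mem (ha I).2.1 (hb I).2.1, tdeg_add (ha I).2.2 (hb I).2.2⟩
  zero_mem' := fun I => ⟨fun _ => rfl, (RR A).zero_mem, tdeg_zero _⟩
  smul_mem' := fun Q η h I =>
    ⟨fun hI => by rw [Pi.smul_apply, (h I).1 hI, smul_zero], act_mem A u Q _ ⟨(h I).2.1, (h I).2.2⟩⟩

theorem nb_dop (i : Fin (d + 1)) (j : Fin (n + 1)) (g : Fld d n) :
    nb A u i (dop A u j g) = dop A u j (nb A u i g) := by
  have h1 : fder (Sum.inl i) (bj A u j) = fder (Sum.inr j) (om A u i) := by
    rw [bj, om, Derivation.map_smul, map_add, Derivation.map_smul, log_symm, map_sum]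
    rw [Finset.sum_eq_zero, add_zero]
    intro k _
    rw [Derivation.map_smul, fder_el_inl, fder_div, fder_el_inr, Derivation.map_algebraMap]
    simp
  simp only [nb_apply, dop_apply, map_add, Derivation.leibniz, smul_eq_mul]
  rw [fder_comm (Sum.inl i) (Sum.inr j) g, h1]
  ring

theorem nb_act (i : Fin (d + 1)) (Q : DZ (n + 1)) (g : Fld d n) :
    nb A u i (act A u Q g) = act A u Q (nb A u i g) := by
  revert g
  refine dz_induction (P := fun Q => ∀ g : Fld d n,
    nb A u i (act A u Q g) = act A u Q (nb A u i g)) ?_ ?_ ?_ ?_ ?_ Q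
  · intro j g
    rw [act_zz, LinearMap.mulLeft_apply, LinearMap.mulLeft_apply, nb_apply, nb_apply,
      Derivation.leibniz, fder_zv, if_neg (by simp)]
    simp only [smul_eq_mul]
    ring
  · intro j g
    rw [act_dd, nb_dop]
  · intro c g
    rw [AlgHom.commutes, Module.algebraMap_end_apply, Module.algebraMap_end_apply, map_smul]
  · intro a b ha hb g
    rw [map_mul, Module.End.mul_apply, Module.End.mul_apply, ha, hb]
  · intro a b ha hb g
    rw [map_add, LinearMap.add_apply, LinearMap.add_apply, map_add, ha, hb]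

/-- The differential `∇_ω η = d_t η + ω ∧ η`: the coefficient of `dt_J` is
`∑_(i ∈ J) (-1)^(#{k ∈ J, k < i}) (∂/∂t_i + ω_i) η_(J - i)`. -/
noncomputable def nab : Om A u →ₗ[DZ (n + 1)] Om A u where
  toFun η J := ∑ i ∈ J, (-1 : Fld d n) ^ #{k ∈ J | k < i} *
    nb A u i (show Fld d n from η (J.erase i))
  map_add' η θ := by
    funext J
    change ∑ i ∈ J, _ * nb A u i ((show Fld d n from η (J.erase i)) +
      (show Fld d n from θ (J.erase i))) = (∑ i ∈ J, _) + (∑ i ∈ J, _)
    rw [← Finset.sum_add_distrib]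
    exact Finset.sum_congr rfl fun i _ => by rw [map_add, mul_add]
  map_smul' Q η := by
    funext J
    change ∑ i ∈ J, (-1 : Fld d n) ^ #{k ∈ J | k < i} *
        nb A u i (act A u Q (show Fld d n from η (J.erase i))) =
      act A u Q (∑ i ∈ J, (-1 : Fld d n) ^ #{k ∈ J | k < i} *
        nb A u i (show Fld d n from η (J.erase i)))
    rw [map_sum]
    refine Finset.sum_congr rfl fun i _ => ?_
    rw [nb_act]
    rcases neg_one_pow_eq_or (Fld d n) #{k ∈ J | k < i} with h | h
    · rw [h, one_mul, one_mul]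
    · rw [h, neg_one_mul, neg_one_mul, map_neg]

/-- Closed `d`-forms. -/
noncomputable def clo : Submodule (DZ (n + 1)) (Om A u) := forms A u d ⊓ LinearMap.ker (nab A u)

/-- Exact `d`-forms. -/
noncomputable def exa : Submodule (DZ (n + 1)) (Om A u) := (forms A u (d - 1)).map (nab A u)

/-- The module `M_L^hyp(u) = H^d(Ω^•, ∇_ω)`: the classes of the closed `d`-forms modulo the exact
`d`-forms. -/
abbrev Mhyp : Type := ↥((clo A u).map (exa A u).mkQ)

/-- The form `f^(d+1) Ω(t) = ∑ (-1)^i t_i f^(d+1) dt_0 ∧ ⋯ (no dt_i) ⋯ ∧ dt_d`. -/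
noncomputable def fOm : Om A u := fun I =>
  ∑ i : Fin (d + 1), if I = univ.erase i then (-1 : Fld d n) ^ (i : ℕ) * tt d n i * ff A ^ (d + 1)
    else 0

end Fun

end Pool.Agent.Q64.EI
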