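import Pool.Agent.Q64.EI.Act

/-!
Project EI (helper64), row MP_2f98db_ag: the chain argument (job INA).
-/

set_option autoImplicit false

open Finset MvPolynomial

namespace Pool.Agent.Q64.EI

open Pool.Agent.Q64.EI.Act in
theorem ina : S_noe → S_eva → S_rel → S_sur → S_ina := by
  intro hnoe heva _ hsur d n A u hcol hu j
  have hy : ∀ (k : ℕ) (l : Fin (n + 1)), fder (Sum.inr l) (yy A j ^ k) = 0 := by
    intro k l
    have h := Oo.fder_zpow (Sum.inr l) (yy A j) (k : ℤ)
    rw [zpow_natCast] at h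
    rw [h, fder_yy_inr, mul_zero]
  have hcom : ∀ (k : ℕ) (Q : DZ (n + 1)) (g : Fld d n),
      actE A Q (yy A j ^ k * g) = yy A j ^ k * actE A Q g := fun k Q g =>
    actE_com A (hy k) Q g
  let K : ℕ → Submodule (DZ (n + 1)) (DZ (n + 1)) := fun k =>
    { carrier := {Q | InW A (tr u j k) (yy A j ^ k * actE A Q 1)}
      add_mem' := fun {a b} ha hb => by
        change InW A (tr u j k) (yy A j ^ k * actE A (a + b) 1)
        rw [map_add, LinearMap.add_apply, mul_add]
        exact inW_add ha hb
      zero_mem' := by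
        change InW A (tr u j k) (yy A j ^ k * actE A 0 1)
        rw [map_zero, LinearMap.zero_apply, mul_zero]
        exact inW_zero
      smul_mem' := fun P Q hQ => by
        change InW A (tr u j k) (yy A j ^ k * actE A (P * Q) 1)
        rw [actE_mul, ← hcom]
        exact inW_act heva hcol P hQ }
  have hstep : ∀ (k : ℕ) (w : Fld d n), InW A (tr u j k) w →
      InW A (tr u j (k + 1)) (yy A j * w) := by
    intro k w hw
    have := inW_yy hcol j hw
    rwa [tr_tr] at this
  have hmono : Monotone K := by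
    refine monotone_nat_of_le_succ fun k Q hQ => ?_
    change InW A (tr u j (k + 1)) (yy A j ^ (k + 1) * actE A Q 1)
    have := hstep k _ hQ
    rwa [← mul_assoc, ← pow_succ'] at this
  have : IsNoetherian (DZ (n + 1)) (DZ (n + 1)) := hnoe (n + 1)
  obtain ⟨k, hk⟩ := monotone_stabilizes_iff_noetherian.2 this ⟨K, hmono⟩
  have hk' : K k = K (k + 1) := hk (k + 1) (Nat.le_succ k)
  have hiter : ∀ (k : ℕ), ∀ g ∈ VV A, ∃ g' ∈ VV A, InW A (tr u j k) (g - yy A j ^ k * g') := by
    intro k
    induction k with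
    | zero =>
      intro g hg
      refine ⟨g, hg, ?_⟩
      rw [pow_zero, one_mul, sub_self]
      exact inW_zero
    | succ k ih =>
      intro g hg
      obtain ⟨g1, hg1, h1⟩ := hsur A (tr u j (k + 1)) hcol (nonres_tr hu j (k + 1)) j g hg
      obtain ⟨g2, hg2, h2⟩ := ih g1 hg1
      refine ⟨g2, hg2, ?_⟩
      have h3 := inW_add h1 (hstep k _ h2)
      have e : g - yy A j * g1 + yy A j * (g1 - yy A j ^ k * g2) =
          g - yy A j ^ (k + 1) * g2 := by
        ring
      rwa [e] at h3
  refine ⟨k, fun g hg hW => ?_⟩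
  obtain ⟨g', hg', h1⟩ := hiter k g hg
  have h2 := inW_sub hW (hstep k _ h1)
  have e : yy A j * g - yy A j * (g - yy A j ^ k * g') = yy A j ^ (k + 1) * g' := by ring
  rw [e] at h2
  obtain ⟨Q, hQ⟩ := (heva A hcol).2.1 g' hg'
  have h3 : Q ∈ K (k + 1) := by
    change InW A (tr u j (k + 1)) (yy A j ^ (k + 1) * actE A Q 1)
    rw [hQ]
    exact h2
  rw [← hk'] at h3
  have h4 : InW A (tr u j k) (yy A j ^ k * g') := by
    rw [← hQ]
    exact h3
  have h5 := inW_add h4 h1
  have e2 : yy A j ^ k * g' + (g - yy A j ^ k * g') = g := by ring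
  rwa [e2] at h5

end Pool.Agent.Q64.EI
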