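import Pool.Agent.Q64.EI.StB

/-!
Project EI: final assembly.
-/

set_option autoImplicit false

open Finset MvPolynomial

namespace Pool.Agent.Q64.EI

section Aux

variable {d n : ℕ} (A : Matrix (Fin (d + 1)) (Fin (n + 1)) ℂ) (u : Fin (n + 1) → ℂ)

theorem vv_le_oo {g : Fld d n} (hg : g ∈ VV A) : g ∈ OO A :=
  Algebra.adjoin_mono (by
    intro x hx
    rcases hx with hx | hx
    · exact Or.inl (Or.inr hx)
    · exact Or.inr hx) hg

theorem tt_oo (i : Fin (d + 1)) : tt d n i ∈ OO A :=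
  Algebra.subset_adjoin (Or.inl (Or.inl ⟨i, rfl⟩))

theorem zv_oo (j : Fin (n + 1)) : zv d n j ∈ OO A :=
  Algebra.subset_adjoin (Or.inl (Or.inr ⟨j, rfl⟩))

theorem yy_oo (j : Fin (n + 1)) : yy A j ∈ OO A :=
  Algebra.subset_adjoin (Or.inr ⟨j, rfl⟩)

theorem el_oo (j : Fin (n + 1)) : el A j ∈ OO A :=
  (OO A).sum_mem fun i _ => (OO A).smul_mem (tt_oo A i) _

theorem ff_oo : ff A ∈ OO A :=
  (OO A).sum_mem fun j _ => by
    rw [div_eq_mul_inv]
    exact (OO A).mul_mem (zv_oo A j) (yy_oo A j)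

theorem fder_oo (v : Fin (d + 1) ⊕ Fin (n + 1)) {g : Fld d n} (hg : g ∈ OO A) :
    fder v g ∈ OO A := by
  induction hg using Algebra.adjoin_induction with
  | mem x hx =>
    rcases hx with (⟨i, rfl⟩ | ⟨j, rfl⟩) | ⟨j, rfl⟩
    · rw [fder_tt]; split_ifs
      · exact (OO A).one_mem
      · exact (OO A).zero_mem
    · rw [fder_zv]; split_ifs
      · exact (OO A).one_mem
      · exact (OO A).zero_mem
    · rw [yy, fder_inv]
      refine (OO A).neg_mem ((OO A).mul_mem ?_ ((OO A).pow_mem (yy_oo A j) 2))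
      rcases v with i | k
      · rw [fder_el_inl]; exact (OO A).algebraMap_mem _
      · rw [fder_el_inr]; exact (OO A).zero_mem
  | algebraMap r => rw [Derivation.map_algebraMap]; exact (OO A).zero_mem
  | add x y _ _ hx hy => rw [map_add]; exact (OO A).add_mem hx hy
  | mul x y hx' hy' hx hy =>
    rw [Derivation.leibniz, smul_eq_mul, smul_eq_mul]
    exact (OO A).add_mem ((OO A).mul_mem hx' hy) ((OO A).mul_mem hy' hx)

theorem oe_oo (i : Fin (d + 1)) : oe A u i ∈ OO A := by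
  refine (OO A).add_mem (fder_oo A _ (ff_oo A)) ((OO A).sum_mem fun j _ => (OO A).smul_mem ?_ _)
  rw [div_eq_mul_inv]
  exact (OO A).mul_mem (fder_oo A _ (el_oo A j)) (yy_oo A j)

theorem ne_oo (i : Fin (d + 1)) {g : Fld d n} (hg : g ∈ OO A) : ne A u i g ∈ OO A :=
  (OO A).add_mem (fder_oo A _ hg) ((OO A).mul_mem (oe_oo A u i) hg)

theorem inW_inK {g : Fld d n} (hg : InW A u g) : InK A u g := by
  obtain ⟨h, h', h1, h2, rfl⟩ := hg
  exact ⟨fun i => h i + tt d n i * h', fun i => (OO A).add_mem (vv_le_oo A (h1 i))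
    ((OO A).mul_mem (tt_oo A i) (vv_le_oo A h2)), rfl⟩

theorem act_tt (Q : DZ (n + 1)) (i : Fin (d + 1)) (g : Fld d n) :
    act A u Q (tt d n i * g) = tt d n i * act A u Q g := by
  revert g
  refine dz_induction (P := fun Q => ∀ g : Fld d n,
    act A u Q (tt d n i * g) = tt d n i * act A u Q g) ?_ ?_ ?_ ?_ ?_ Q
  · intro j g
    rw [act_zz, LinearMap.mulLeft_apply, LinearMap.mulLeft_apply]
    ring
  · intro j g
    rw [act_dd, dop_apply, dop_apply, Derivation.leibniz, fder_tt, if_neg (by simp)]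
    simp only [smul_eq_mul]
    ring
  · intro c g
    rw [AlgHom.commutes, Module.algebraMap_end_apply, Module.algebraMap_end_apply, mul_smul_comm]
  · intro a b ha hb g
    have e : act A u (a * b) = act A u a * act A u b := map_mul _ a b
    rw [e, Module.End.mul_apply, Module.End.mul_apply, hb, ha]
  · intro a b ha hb g
    rw [map_add, LinearMap.add_apply, LinearMap.add_apply, ha, hb, mul_add]

theorem co_sub (η θ : Om A u) (i : Fin (d + 1)) :
    co A u (η - θ) i = co A u η i - co A u θ i := by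
  change (-1 : Fld d n) ^ (i : ℕ) * ((show Fld d n from η (univ.erase i)) -
    (show Fld d n from θ (univ.erase i))) = _
  rw [mul_sub]
  rfl

end Aux

/-- Exactness of the form `Θ(v) Ω(t)`. -/
theorem exact_iff (hthb : S_thb) (hthc : S_thc) (hhom : S_hom) {d n : ℕ}
    (A : Matrix (Fin (d + 1)) (Fin (n + 1)) ℂ) (u : Fin (n + 1) → ℂ)
    (hcol : ∀ j, ∃ i, A i j ≠ 0) (hu : NonRes u) {γ : ℤ → ℂ}
    {Θ : ℤ → (Fld d n →ₗ[ℂ] Fld d n)} (hΘ : Theta A u γ Θ) {v : Fld d n} (hv : v ∈ OO A) :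
    InK A u v ↔ ∃ b : Fin (d + 1) → Fin (d + 1) → Fld d n,
      (∀ i j, b i j ∈ RR A ∧ TDeg (1 - d) (b i j) ∧ b i j = -b j i) ∧
      ∀ i, Θ d (tt d n i * v) = ∑ j, nb A u j (b i j) := by
  obtain ⟨t1, t2, t3, t4, t5⟩ := hthb A u γ Θ hcol hΘ
  obtain ⟨h1, h2, h3⟩ := hhom A u hcol
  have kd := hthc A u γ Θ hcol hu hΘ d
  have kd1 := hthc A u γ Θ hcol hu hΘ (d + 1)
  have t1' : ∀ (i : Fin (d + 1)), ∀ g ∈ OO A, Θ d (ne A u i g) = nb A u i (Θ (d - 1) g) := by
    intro i g hg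
    have := t1 (d - 1) i g hg
    rwa [sub_add_cancel] at this
  constructor
  · rintro ⟨h, hh, rfl⟩
    refine ⟨fun i k => Θ (d - 1) (tt d n i * h k - tt d n k * h i), fun i j => ⟨?_, ?_, ?_⟩,
      fun i => ?_⟩
    · exact (t4 (d - 1) _ ((OO A).sub_mem ((OO A).mul_mem (tt_oo A i) (hh j))
        ((OO A).mul_mem (tt_oo A j) (hh i)))).1
    · have := (t4 (d - 1) _ ((OO A).sub_mem ((OO A).mul_mem (tt_oo A i) (hh j))
        ((OO A).mul_mem (tt_oo A j) (hh i)))).2
      rwa [neg_sub] at this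
    · rw [← map_neg, neg_sub]
    · have e1 := h2 h i
      have e2 : Θ d (lie A u d (h i)) = 0 :=
        (kd.1 _ (by
          rw [e1]
          exact (OO A).add_mem ((OO A).sum_mem fun k _ => ne_oo A u k
            ((OO A).sub_mem ((OO A).mul_mem (tt_oo A k) (hh i))
              ((OO A).mul_mem (tt_oo A i) (hh k))))
            ((OO A).mul_mem (tt_oo A i) ((OO A).sum_mem fun k _ => ne_oo A u k (hh k))))).2
          ⟨h i, hh i, rfl⟩
      rw [e1, map_add, map_sum] at e2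
      have e3 : Θ d (tt d n i * ∑ k, ne A u k (h k)) =
          -∑ k, Θ d (ne A u k (tt d n k * h i - tt d n i * h k)) := by
        linear_combination e2
      rw [e3, ← Finset.sum_neg_distrib]
      refine Finset.sum_congr rfl fun k _ => ?_
      rw [t1' k _ ((OO A).sub_mem ((OO A).mul_mem (tt_oo A k) (hh i))
              ((OO A).mul_mem (tt_oo A i) (hh k))), ← map_neg, ← map_neg, neg_sub]
  · rintro ⟨b, hb, hbv⟩
    have hch : ∀ i j, ∃ g ∈ OO A, Θ (d - 1) g = b i j := fun i j =>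
      t5 (d - 1) (b i j) (hb i j).1 (by rw [neg_sub]; exact (hb i j).2.1)
    choose β0 hβ0 hβ0' using hch
    let β : Fin (d + 1) → Fin (d + 1) → Fld d n := fun i j => (1 / 2 : ℂ) • (β0 i j - β0 j i)
    have hβm : ∀ i j, β i j ∈ OO A := fun i j =>
      (OO A).smul_mem ((OO A).sub_mem (hβ0 i j) (hβ0 j i)) _
    have hβa : ∀ i j, β i j = -β j i := by
      intro i j
      simp only [β]
      rw [← smul_neg, neg_sub]
    have hβΘ : ∀ i j, Θ (d - 1) (β i j) = b i j := by
      intro i j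
      simp only [β]
      rw [map_smul, map_sub, hβ0', hβ0', (hb j i).2.2, sub_neg_eq_add, ← two_smul ℂ, smul_smul]
      norm_num
    have hτ : ∀ i, ∃ τ ∈ OO A, tt d n i * v - ∑ j, ne A u j (β i j) = lie A u d τ := by
      intro i
      refine (kd.1 _ ?_).1 ?_
      · exact (OO A).sub_mem ((OO A).mul_mem (tt_oo A i) hv)
          ((OO A).sum_mem fun j _ => ne_oo A u j (hβm i j))
      · rw [map_sub, hbv i, map_sum, sub_eq_zero]
        refine Finset.sum_congr rfl fun j _ => ?_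
        rw [t1' j _ (hβm i j), hβΘ]
    choose τ hτm hτe using hτ
    refine ⟨τ, hτm, ?_⟩
    have hg : ∀ i, tt d n i * (v - ∑ k, ne A u k (τ k)) =
        ∑ j, ne A u j (β i j + (tt d n j * τ i - tt d n i * τ j)) := by
      intro i
      have e1 := h2 τ i
      have e2 := hτe i
      have e3 : ∑ j, ne A u j (β i j + (tt d n j * τ i - tt d n i * τ j)) =
          ∑ j, ne A u j (β i j) + ∑ j, ne A u j (tt d n j * τ i - tt d n i * τ j) := by
        rw [← Finset.sum_add_distrib]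
        exact Finset.sum_congr rfl fun j _ => by rw [map_add]
      rw [e3]
      linear_combination e2 + e1
    have hz : lie A u (d + 1) (v - ∑ k, ne A u k (τ k)) = 0 := by
      rw [← h1]
      simp only [hg, map_sum]
      have hanti : ∀ i j, β i j + (tt d n j * τ i - tt d n i * τ j) =
          -(β j i + (tt d n i * τ j - tt d n j * τ i)) := by
        intro i j
        rw [hβa i j]
        ring
      have hs : ∑ i, ∑ j, ne A u i (ne A u j (β i j + (tt d n j * τ i - tt d n i * τ j))) =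
          -∑ i, ∑ j, ne A u i (ne A u j (β i j + (tt d n j * τ i - tt d n i * τ j))) := by
        conv_lhs => rw [Finset.sum_comm]
        rw [← Finset.sum_neg_distrib]
        refine Finset.sum_congr rfl fun i _ => ?_
        rw [← Finset.sum_neg_distrib]
        refine Finset.sum_congr rfl fun j _ => ?_
        rw [hanti j i, map_neg, map_neg, h3 j i]
      have h4 := eq_neg_iff_add_eq_zero.1 hs
      rw [← two_mul] at h4
      exact (mul_eq_zero.1 h4).resolve_left two_ne_zero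
    have hz2 := kd1.2 _ ((OO A).sub_mem hv ((OO A).sum_mem fun k _ => ne_oo A u k (hτm k))) hz
    exact sub_eq_zero.1 hz2

theorem main (haut : S_aut) (heva : S_eva) (hrel : S_rel) (honv : S_onv) (hktr : S_ktr)
    (htha : S_tha) (hthb : S_thb) (hthc : S_thc) (hhom : S_hom) (hfrm : S_frm) : S_main := by
  intro d n A hA hcol
  obtain ⟨S, hSc, hS0, hS⟩ := haut n (Set.range fun p : Fin (d + 1) × Fin (n + 1) => A p.1 p.2)
    (Set.countable_range _)
  refine ⟨S, hSc, hS0, fun u hu => ?_⟩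
  obtain ⟨hnr, hmov'⟩ := hS u hu
  have hmov : Mov A u := by
    intro k
    obtain ⟨σ, h1, h2⟩ := hmov' k
    exact ⟨σ, fun i j => h1 _ ⟨(i, j), rfl⟩, h2⟩
  obtain ⟨F1, F2⟩ := honv A u hA hcol hnr
  obtain ⟨E1, E2, E3⟩ := heva A hcol
  obtain ⟨γ, Θ, hΘ⟩ := htha (d := d) A u hnr
  obtain ⟨t1, t2, t3, t4, t5⟩ := hthb A u γ Θ hcol hΘ
  obtain ⟨h1, h2, h3⟩ := hhom A u hcol
  have kd := hthc A u γ Θ hcol hnr hΘ d
  have kd1 := hthc A u γ Θ hcol hnr hΘ (d + 1)
  obtain ⟨f1, f2, f3, f4, f5, f6, f7⟩ := hfrm A u hcol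
  have t1' : ∀ (i : Fin (d + 1)), ∀ g ∈ OO A, Θ d (ne A u i g) = nb A u i (Θ (d - 1) g) := by
    intro i g hg
    have := t1 (d - 1) i g hg
    rwa [sub_add_cancel] at this
  have hex := fun {v : Fld d n} (hv : v ∈ OO A) => exact_iff hthb hthc hhom A u hcol hnr hΘ hv
  have hone : Θ (d + 1) 1 = ff A ^ (d + 1) := by
    have h0 : TDeg (0 : ℤ) (1 : Fld d n) := by
      unfold TDeg
      simp
    rw [hΘ.hom (d + 1) 0 1 h0, zero_add, hΘ.one, one_smul, one_mul]
    norm_cast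
  have hcoQ : ∀ (Q : DZ (n + 1)) (i : Fin (d + 1)),
      co A u (Q • fOm A u) i = Θ d (tt d n i * actE A Q 1) := by
    intro Q i
    rw [f6, f5, act_tt, t2 d i _ (vv_le_oo A (E1 Q)), t3 Q 1 (OO A).one_mem, hone]
  have hQf : ∀ Q : DZ (n + 1), Q • fOm A u ∈ forms A u d := fun Q =>
    (forms A u d).smul_mem Q f4
  have hexa : ∀ Q : DZ (n + 1), Q • fOm A u ∈ exa A u ↔ Q ∈ HL A u := by
    intro Q
    rw [f2 _ (hQf Q), hrel A u hcol Q]
    simp only [hcoQ]
    rw [← hex (vv_le_oo A (E1 Q))]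
    exact ⟨fun h => F2 hmov _ (E1 Q) h, fun h => inW_inK A u h⟩
  have hclo : ∀ Q : DZ (n + 1), Q • fOm A u ∈ clo A u := by
    intro Q
    refine ⟨hQf Q, ?_⟩
    change nab A u (Q • fOm A u) = 0
    rw [f1 _ (hQf Q)]
    simp only [hcoQ]
    have e1 : ∑ i, nb A u i (Θ d (tt d n i * actE A Q 1)) =
        Θ (d + 1) (∑ i, ne A u i (tt d n i * actE A Q 1)) := by
      rw [map_sum]
      exact Finset.sum_congr rfl fun i _ =>
        (t1 d i _ ((OO A).mul_mem (tt_oo A i) (vv_le_oo A (E1 Q)))).symm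
    rw [e1, h1]
    refine (kd1.1 _ ?_).2 ⟨_, vv_le_oo A (E1 Q), rfl⟩
    rw [← h1]
    exact (OO A).sum_mem fun i _ => ne_oo A u i ((OO A).mul_mem (tt_oo A i) (vv_le_oo A (E1 Q)))
  let Ψ : DZ (n + 1) →ₗ[DZ (n + 1)] (Om A u ⧸ exa A u) :=
    LinearMap.toSpanSingleton (DZ (n + 1)) (Om A u ⧸ exa A u) ((exa A u).mkQ (fOm A u))
  have hΨ : ∀ Q, Ψ Q = (exa A u).mkQ (Q • fOm A u) := fun Q => by
    rw [map_smul]
    rfl
  have hker : LinearMap.ker Ψ = HL A u := by
    ext Q
    rw [LinearMap.mem_ker, hΨ, Submodule.mkQ_apply, Submodule.Quotient.mk_eq_zero, hexa]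
  have hran : LinearMap.range Ψ = (clo A u).map (exa A u).mkQ := by
    apply le_antisymm
    · rintro _ ⟨Q, rfl⟩
      exact ⟨Q • fOm A u, hclo Q, (hΨ Q).symm⟩
    · rintro _ ⟨η, hη, rfl⟩
      have hηf : η ∈ forms A u d := hη.1
      have hηn : ∑ i, nb A u i (co A u η i) = 0 := (f1 η hηf).1 hη.2
      have hch : ∀ i, ∃ g ∈ OO A, Θ d g = co A u η i := fun i =>
        t5 d _ (f7 η hηf i).1 (f7 η hηf i).2
      choose g hgm hgΘ using hch
      have e1 : Θ (d + 1) (∑ i, ne A u i (g i)) = 0 := by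
        rw [map_sum, ← hηn]
        exact Finset.sum_congr rfl fun i _ => by rw [t1 d i _ (hgm i), hgΘ]
      obtain ⟨g0, hg0, hg0e⟩ := (kd1.1 _ ((OO A).sum_mem fun i _ => ne_oo A u i (hgm i))).1 e1
      rw [← h1] at hg0e
      have e2 : ∑ i, ne A u i (g i - tt d n i * g0) = 0 := by
        simp only [map_sub, Finset.sum_sub_distrib]
        rw [hg0e, sub_self]
      obtain ⟨b, hbm, hba, hbe⟩ := hktr A u hA hcol (fun i => g i - tt d n i * g0)
        (fun i => (OO A).sub_mem (hgm i) ((OO A).mul_mem (tt_oo A i) hg0)) e2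
      obtain ⟨v, hv, hvK⟩ := F1 g0 hg0
      obtain ⟨Q, hQ⟩ := E2 v hv
      refine ⟨Q, ?_⟩
      rw [hΨ, Submodule.mkQ_apply, Submodule.mkQ_apply, eq_comm, Submodule.Quotient.eq,
        f2 _ ((forms A u d).sub_mem hηf (hQf Q))]
      obtain ⟨b', hb', hb'e⟩ := (hex ((OO A).sub_mem hg0 (vv_le_oo A hv))).1 hvK
      refine ⟨fun i j => Θ (d - 1) (b i j) + b' i j, fun i j => ⟨?_, ?_, ?_⟩, fun i => ?_⟩
      · exact (RR A).add_mem (t4 (d - 1) _ (hbm i j)).1 (hb' i j).1
      · have := (t4 (d - 1) _ (hbm i j)).2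
        rw [neg_sub] at this
        exact tdeg_add this (hb' i j).2.1
      · change Θ (d - 1) (b i j) + b' i j = -(Θ (d - 1) (b j i) + b' j i)
        rw [hba i j, map_neg, (hb' i j).2.2]
        ring
      · rw [co_sub, hcoQ, hQ, ← hgΘ i]
        have e3 : g i = ∑ j, ne A u j (b i j) + tt d n i * g0 := by
          rw [← hbe i]
          ring
        have e4 : Θ d (g i) - Θ d (tt d n i * v) = Θ d (∑ j, ne A u j (b i j)) +
            Θ d (tt d n i * (g0 - v)) := by
          rw [← map_sub, ← map_add, e3]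
          congr 1
          ring
        rw [e4, hb'e i, map_sum, ← Finset.sum_add_distrib]
        exact Finset.sum_congr rfl fun j _ => by rw [t1' j _ (hbm i j), map_add]
  refine ⟨(Submodule.quotEquivOfEq _ _ hker.symm).trans
    ((LinearMap.quotKerEquivRange Ψ).trans (LinearEquiv.ofEq _ _ hran)), ?_⟩
  simp only [LinearEquiv.trans_apply, Submodule.quotEquivOfEq_mk]
  change ((LinearMap.quotKerEquivRange Ψ (Submodule.Quotient.mk 1) : _) : Om A u ⧸ exa A u) = _
  rw [LinearMap.quotKerEquivRange_apply_mk, hΨ, one_smul]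

end Pool.Agent.Q64.EI
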