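import Pool.Agent.Q64.EI.StB

/-!
Project EI (helper64), row MP_2f98db_ag: existence of the Gamma factor maps (job THA).
-/

set_option autoImplicit false

open Finset MvPolynomial

namespace Pool.Agent.Q64.EI

theorem tha_aux {V : Type} [AddCommGroup V] [Module ℂ V] (D : ℤ → Submodule ℂ V)
    (hD : ∀ c : ℤ →₀ V, (∀ q, c q ∈ D q) → (c.sum fun _ x => x) = 0 → c = 0)
    (T : ℤ → (V →ₗ[ℂ] V)) : ∃ Θ : V →ₗ[ℂ] V, ∀ (m : ℤ), ∀ g ∈ D m, Θ g = T m g := by
  let W : Submodule ℂ (ℤ →₀ V) :=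
    { carrier := {c | ∀ q, c q ∈ D q}
      add_mem' := fun ha hb q => (D q).add_mem (ha q) (hb q)
      zero_mem' := fun q => (D q).zero_mem
      smul_mem' := fun r _ h q => (D q).smul_mem r (h q) }
  let Sg : (ℤ →₀ V) →ₗ[ℂ] V := Finsupp.lsum ℂ fun _ => LinearMap.id
  have hinj : LinearMap.ker (Sg.comp W.subtype) = ⊥ := by
    rw [LinearMap.ker_eq_bot']
    rintro ⟨c, hc⟩ h0
    have h1 : (c.sum fun _ x => x) = 0 := h0
    exact Subtype.ext (hD c hc h1)
  obtain ⟨L, hL⟩ := LinearMap.exists_leftInverse_of_injective (Sg.comp W.subtype) hinj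
  refine ⟨(Finsupp.lsum ℂ T).comp (W.subtype.comp L), fun m g hg => ?_⟩
  have hmem : Finsupp.single m g ∈ W := by
    intro q
    by_cases hq : m = q
    · subst hq
      rw [Finsupp.single_eq_same]
      exact hg
    · rw [Finsupp.single_eq_of_ne (Ne.symm hq)]
      exact (D q).zero_mem
  have h1 : L g = ⟨Finsupp.single m g, hmem⟩ := by
    have h2 := LinearMap.congr_fun hL ⟨Finsupp.single m g, hmem⟩
    have h3 : (Sg.comp W.subtype) ⟨Finsupp.single m g, hmem⟩ = g := by
      simp [Sg, Finsupp.lsum_apply]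
    rw [LinearMap.comp_apply, h3] at h2
    exact h2
  change Finsupp.lsum ℂ T ((L g : W) : ℤ →₀ V) = _
  rw [h1]
  simp [Finsupp.lsum_apply]

/-- Auxiliary: homogeneous functions of degree `q`. -/
def HomS (d n : ℕ) (q : ℤ) : Submodule ℂ (Fld d n) where
  carrier := {g | TDeg q g}
  add_mem' := fun ha hb => tdeg_add ha hb
  zero_mem' := tdeg_zero q
  smul_mem' := fun r _ h => tdeg_smul r h

theorem tha : S_ind → S_tha := by
  intro hind d n A u hu
  set s : ℂ := ∑ j, u j with hs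
  have hns : ∀ k : ℤ, s ≠ k := fun k => hu univ ⟨0, Finset.mem_univ _⟩ k
  have hG : ∀ k : ℤ, Complex.Gamma (k + s) ≠ 0 := by
    intro k
    refine Complex.Gamma_ne_zero fun m h => hns (-m - k) ?_
    push_cast
    linear_combination h
  let γ : ℤ → ℂ := fun M => Complex.Gamma (d + 2 + s) / Complex.Gamma (M + 1 + s)
  have hG2 : Complex.Gamma (d + 2 + s) ≠ 0 := by
    have := hG (d + 2)
    push_cast at this
    exact this
  have hG1 : ∀ M : ℤ, Complex.Gamma (M + 1 + s) ≠ 0 := by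
    intro M
    have := hG (M + 1)
    push_cast at this
    exact this
  let F : Fld d n := ff A
  have hex : ∀ p : ℤ, ∃ Θ : Fld d n →ₗ[ℂ] Fld d n, ∀ (m : ℤ), ∀ g ∈ HomS d n m,
      Θ g = (γ (m + p) • LinearMap.mulRight ℂ (F ^ (m + p))) g := fun p =>
    tha_aux (HomS d n) (fun c hc h0 => hind c hc h0) _
  choose Θ hΘ using hex
  refine ⟨γ, Θ, ?_, ?_, ?_, ?_⟩
  · intro M
    exact div_ne_zero hG2 (hG1 M)
  · have e : (((d : ℤ) + 1 : ℤ) : ℂ) + 1 + s = d + 2 + s := by
      push_cast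
      ring
    change Complex.Gamma (d + 2 + s) / Complex.Gamma ((((d : ℤ) + 1 : ℤ) : ℂ) + 1 + s) = 1
    rw [e, div_self hG2]
  · intro M
    have e1 : (M : ℂ) + s ≠ 0 := by
      intro h
      apply hns (-M)
      push_cast
      linear_combination h
    have e2 : Complex.Gamma ((M : ℂ) + 1 + s) = (M + s) * Complex.Gamma (M + s) := by
      rw [← Complex.Gamma_add_one _ e1]
      congr 1
      ring
    have e3 : (((M - 1 : ℤ)) : ℂ) + 1 + s = M + s := by
      push_cast
      ring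
    change Complex.Gamma (d + 2 + s) / Complex.Gamma ((((M - 1 : ℤ)) : ℂ) + 1 + s) =
      (M + s) * (Complex.Gamma (d + 2 + s) / Complex.Gamma ((M : ℂ) + 1 + s))
    rw [e3, e2]
    have := hG M
    field_simp
  · intro p m g hg
    rw [hΘ p m g hg]
    rfl

end Pool.Agent.Q64.EI
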