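import Pool.Agent.Q64.EI.Oo

/-!
Project EI (helper64), row MP_2f98db_ag: first properties of the Gamma factor maps (job THB).
-/

set_option autoImplicit false

open Finset MvPolynomial

namespace Pool.Agent.Q64.EI.Thb

open Pool.Agent.Q64.EI Pool.Agent.Q64.EI.Oo

variable {d n : ℕ} (A : Matrix (Fin (d + 1)) (Fin (n + 1)) ℂ) (u : Fin (n + 1) → ℂ)
  {γ : ℤ → ℂ} {Θ : ℤ → (Fld d n →ₗ[ℂ] Fld d n)}

theorem part1 (hgrd : S_grd) (hcol : ∀ j, ∃ i, A i j ≠ 0) (hT : Theta A u γ Θ) (p : ℤ)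
    (i : Fin (d + 1)) : ∀ g ∈ OO A, Θ (p + 1) (ne A u i g) = nb A u i (Θ p g) := by
  have hF := ff_ne A hcol
  refine hom_induction A hgrd ?_ ?_ ?_
  · simp
  · intro a b ha hb
    simp only [map_add, ha, hb]
  · intro m g hg hm
    have h1 : TDeg (m - 1) (fder (Sum.inl i) g + lam A u i * g) := by
      refine tdeg_add (tdeg_fdert hm i) ?_
      have := tdeg_mul (tdeg_lam A u i) hm
      rwa [neg_add_eq_sub] at this
    have h2 : TDeg (m - 2) (fder (Sum.inl i) (ff A) * g) := by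
      have := tdeg_mul (tdeg_fdert (tdeg_ff A) i) hm
      have e : (-1 : ℤ) - 1 + m = m - 2 := by ring
      rwa [e] at this
    have e0 : ne A u i g = (fder (Sum.inl i) g + lam A u i * g) +
        fder (Sum.inl i) (ff A) * g := by
      rw [ne_apply, oe_eq]
      ring
    have e1 : m - 1 + (p + 1) = m + p := by ring
    have e2 : m - 2 + (p + 1) = m + p - 1 := by ring
    rw [e0, map_add, hT.hom _ _ _ h1, hT.hom _ _ _ h2, hT.hom _ _ _ hm, e1, e2, hT.step,
      map_smul, nb_apply, Derivation.leibniz, om_eq, fder_zpow]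
    simp only [smul_eq_mul]
    simp only [Algebra.smul_def, map_mul, map_add, map_intCast]
    rw [zpow_sub_one₀ hF]
    push_cast
    field_simp
    ring

theorem part2 (hgrd : S_grd) (hT : Theta A u γ Θ) (p : ℤ)
    (i : Fin (d + 1)) : ∀ g ∈ OO A, Θ p (tt d n i * g) = tt d n i * Θ (p + 1) g := by
  refine hom_induction A hgrd ?_ ?_ ?_
  · simp
  · intro a b ha hb
    simp only [map_add, mul_add, ha, hb]
  · intro m g hg hm
    have h1 : TDeg (1 + m) (tt d n i * g) := tdeg_mul (tdeg_tt i) hm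
    have e1 : 1 + m + p = m + (p + 1) := by ring
    rw [hT.hom _ _ _ h1, hT.hom _ _ _ hm, e1, mul_smul_comm, mul_assoc]

theorem part3a (hgrd : S_grd) (hT : Theta A u γ Θ) (p : ℤ)
    (j : Fin (n + 1)) : ∀ g ∈ OO A, Θ p (zv d n j * g) = zv d n j * Θ p g := by
  refine hom_induction A hgrd ?_ ?_ ?_
  · simp
  · intro a b ha hb
    simp only [map_add, mul_add, ha, hb]
  · intro m g hg hm
    have h1 : TDeg m (zv d n j * g) := by
      have := tdeg_mul (tdeg_zv (d := d) j) hm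
      rwa [zero_add] at this
    rw [hT.hom _ _ _ h1, hT.hom _ _ _ hm, mul_smul_comm, mul_assoc]

theorem part3b (hgrd : S_grd) (hcol : ∀ j, ∃ i, A i j ≠ 0) (hT : Theta A u γ Θ) (p : ℤ)
    (j : Fin (n + 1)) : ∀ g ∈ OO A, Θ p (de A j g) = dop A u j (Θ p g) := by
  have hF := ff_ne A hcol
  refine hom_induction A hgrd ?_ ?_ ?_
  · simp
  · intro a b ha hb
    simp only [map_add, ha, hb]
  · intro m g hg hm
    have h1 : TDeg m (fder (Sum.inr j) g) := tdeg_fderz hm j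
    have h2 : TDeg (m - 1) ((el A j)⁻¹ * g) := by
      have := tdeg_mul (tdeg_inv (tdeg_el A j)) hm
      rwa [neg_add_eq_sub] at this
    have e2 : m - 1 + p = m + p - 1 := by ring
    rw [de_apply, fder_ff_inr, map_add, hT.hom _ _ _ h1, hT.hom _ _ _ h2, hT.hom _ _ _ hm, e2,
      hT.step, map_smul, dop_apply, Derivation.leibniz, bj_eq, fder_zpow, fder_ff_inr]
    simp only [smul_eq_mul]
    simp only [Algebra.smul_def, map_mul, map_add, map_intCast]
    rw [zpow_sub_one₀ hF]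
    push_cast
    field_simp
    ring

theorem part3 (hgrd : S_grd) (hcol : ∀ j, ∃ i, A i j ≠ 0) (hT : Theta A u γ Θ) (p : ℤ)
    (Q : DZ (n + 1)) : ∀ g ∈ OO A, Θ p (actE A Q g) = act A u Q (Θ p g) := by
  refine dz_induction (P := fun Q => ∀ g ∈ OO A, Θ p (actE A Q g) = act A u Q (Θ p g))
    ?_ ?_ ?_ ?_ ?_ Q
  · intro j g hg
    rw [actE_zz, act_zz, LinearMap.mulLeft_apply, LinearMap.mulLeft_apply]
    exact part3a A u hgrd hT p j g hg
  · intro j g hg
    rw [actE_dd, act_dd]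
    exact part3b A u hgrd hcol hT p j g hg
  · intro c g hg
    rw [AlgHom.commutes, AlgHom.commutes, Module.algebraMap_end_apply,
      Module.algebraMap_end_apply, map_smul]
  · intro a b ha hb g hg
    have e : actE A (a * b) = actE A a * actE A b := map_mul _ a b
    have e' : act A u (a * b) = act A u a * act A u b := map_mul _ a b
    rw [e, e', Module.End.mul_apply, Module.End.mul_apply, ha _ (actE_mem A b g hg), hb g hg]
  · intro a b ha hb g hg
    rw [map_add, map_add, LinearMap.add_apply, LinearMap.add_apply, map_add, ha g hg, hb g hg]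

theorem zpow_mem (k : ℤ) : ff A ^ k ∈ RR A := by
  rcases k with k | k
  · rw [Int.ofNat_eq_natCast, zpow_natCast]
    exact (RR A).pow_mem (Pool.Agent.Q64.EI.ff_mem A) k
  · rw [zpow_negSucc, ← inv_pow]
    exact (RR A).pow_mem (ffi_mem A) (k + 1)

theorem part4 (hgrd : S_grd) (hcol : ∀ j, ∃ i, A i j ≠ 0) (hT : Theta A u γ Θ) (p : ℤ) :
    ∀ g ∈ OO A, Θ p g ∈ RR A ∧ TDeg (-p) (Θ p g) := by
  refine hom_induction A hgrd ?_ ?_ ?_
  · rw [map_zero]
    exact ⟨(RR A).zero_mem, tdeg_zero _⟩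
  · intro a b ha hb
    rw [map_add]
    exact ⟨(RR A).add_mem ha.1 hb.1, tdeg_add ha.2 hb.2⟩
  · intro m g hg hm
    rw [hT.hom _ _ _ hm]
    refine ⟨(RR A).smul_mem ((RR A).mul_mem (oo_le_rr A hg) (zpow_mem A _)) _, tdeg_smul _ ?_⟩
    have := tdeg_mul hm (tdeg_zpow (tdeg_ff A) (ff_ne A hcol) (m + p))
    have e : m + (m + p) * -1 = -p := by ring
    rwa [e] at this

theorem clear_den (hcol : ∀ j, ∃ i, A i j ≠ 0) {G : Fld d n} (hG : G ∈ RR A) :
    ∃ N : ℕ, ff A ^ N * G ∈ OO A := by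
  induction hG using Algebra.adjoin_induction with
  | mem x hx =>
    rcases hx with ((⟨i, rfl⟩ | ⟨j, rfl⟩) | ⟨j, rfl⟩) | hx
    · exact ⟨0, by rw [pow_zero, one_mul]; exact Oo.tt_mem A i⟩
    · exact ⟨0, by rw [pow_zero, one_mul]; exact Oo.zv_mem A j⟩
    · exact ⟨0, by rw [pow_zero, one_mul]; exact Oo.eli_mem A j⟩
    · refine ⟨1, ?_⟩
      rw [Set.mem_singleton_iff.1 hx, pow_one, mul_inv_cancel₀ (ff_ne A hcol)]
      exact (OO A).one_mem
  | algebraMap r => exact ⟨0, by rw [pow_zero, one_mul]; exact (OO A).algebraMap_mem r⟩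
  | add x y _ _ hx hy =>
    obtain ⟨N, hN⟩ := hx
    obtain ⟨M, hM⟩ := hy
    refine ⟨N + M, ?_⟩
    have e : ff A ^ (N + M) * (x + y) = ff A ^ M * (ff A ^ N * x) + ff A ^ N * (ff A ^ M * y) := by
      ring
    rw [e]
    exact (OO A).add_mem ((OO A).mul_mem ((OO A).pow_mem (Oo.ff_mem A) _) hN)
      ((OO A).mul_mem ((OO A).pow_mem (Oo.ff_mem A) _) hM)
  | mul x y _ _ hx hy =>
    obtain ⟨N, hN⟩ := hx
    obtain ⟨M, hM⟩ := hy
    refine ⟨N + M, ?_⟩
    have e : ff A ^ (N + M) * (x * y) = (ff A ^ N * x) * (ff A ^ M * y) := by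
      ring
    rw [e]
    exact (OO A).mul_mem hN hM

theorem part5 (hcol : ∀ j, ∃ i, A i j ≠ 0) (hT : Theta A u γ Θ) (p : ℤ) :
    ∀ G ∈ RR A, TDeg (-p) G → ∃ g ∈ OO A, Θ p g = G := by
  intro G hG hp
  have hF := ff_ne A hcol
  obtain ⟨N, hN⟩ := clear_den A hcol hG
  have h1 : TDeg (-(N : ℤ) - p) (ff A ^ N * G) := by
    have := tdeg_mul (tdeg_zpow (tdeg_ff A) hF (N : ℤ)) hp
    have e : (N : ℤ) * -1 + -p = -(N : ℤ) - p := by ring
    rw [zpow_natCast] at this
    rwa [e] at this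
  refine ⟨(γ (-N))⁻¹ • (ff A ^ N * G), (OO A).smul_mem hN _, ?_⟩
  have e : -(N : ℤ) - p + p = -N := by ring
  rw [map_smul, hT.hom _ _ _ h1, e, smul_smul, inv_mul_cancel₀ (hT.ne _), one_smul, zpow_neg,
    zpow_natCast]
  field_simp

end Pool.Agent.Q64.EI.Thb

namespace Pool.Agent.Q64.EI

theorem thb : S_grd → S_thb := fun hgrd _ _ A u _ _ hcol hT =>
  ⟨fun p i => Thb.part1 A u hgrd hcol hT p i, fun p i => Thb.part2 A u hgrd hT p i,
    fun Q => Thb.part3 A u hgrd hcol hT _ Q, fun p => Thb.part4 A u hgrd hcol hT p,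
    fun p => Thb.part5 A u hcol hT p⟩

end Pool.Agent.Q64.EI
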