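import Pool.Agent.Q64.EI.Oo

/-!
Project EI (helper64), row MP_2f98db_ag: the kernel of the Gamma factor maps (job THC).
-/

set_option autoImplicit false

open Finset MvPolynomial

namespace Pool.Agent.Q64.EI.Thc

open Pool.Agent.Q64.EI Pool.Agent.Q64.EI.Oo

variable {d n : ℕ} (A : Matrix (Fin (d + 1)) (Fin (n + 1)) ℂ) (u : Fin (n + 1) → ℂ)
  {γ : ℤ → ℂ} {Θ : ℤ → (Fld d n →ₗ[ℂ] Fld d n)}

theorem lie_hom {p m : ℤ} {h : Fld d n} (hm : TDeg m h) :
    lie A u p h = ((m : ℂ) + p + ∑ j, u j) • h - ff A * h := by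
  unfold TDeg at hm
  rw [lie, hm, Algebra.smul_def, Algebra.smul_def]
  simp only [map_add, map_intCast]
  ring

theorem lie_add (p : ℤ) (a b : Fld d n) : lie A u p (a + b) = lie A u p a + lie A u p b := by
  simp only [lie, map_add, mul_add, smul_add, Finset.sum_add_distrib]
  ring

theorem lie_smul (p : ℤ) (c : ℂ) (a : Fld d n) : lie A u p (c • a) = c • lie A u p a := by
  simp only [lie, Derivation.map_smul, mul_smul_comm, ← Finset.smul_sum, smul_sub, smul_add,
    smul_comm c]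

theorem lie_zero (p : ℤ) : lie A u p (0 : Fld d n) = 0 := by
  simp [lie]

theorem res_ne (hu : NonRes u) (p m : ℤ) : (m : ℂ) + p + ∑ j, u j ≠ 0 := by
  intro h
  apply hu univ ⟨0, Finset.mem_univ _⟩ (-m - p)
  push_cast
  linear_combination h

theorem tdeg_ffmul {m : ℤ} {g : Fld d n} (hm : TDeg m g) : TDeg (m - 1) (ff A * g) := by
  have := tdeg_mul (tdeg_ff A) hm
  rwa [neg_add_eq_sub] at this

theorem van (hgrd : S_grd) (hcol : ∀ j, ∃ i, A i j ≠ 0) (hT : Theta A u γ Θ) (p : ℤ) :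
    ∀ h ∈ OO A, Θ p (lie A u p h) = 0 := by
  have hF := ff_ne A hcol
  refine hom_induction A hgrd ?_ ?_ ?_
  · rw [lie_zero, map_zero]
  · intro a b ha hb
    rw [lie_add, map_add, ha, hb, add_zero]
  · intro m g hg hm
    have e : m - 1 + p = m + p - 1 := by ring
    rw [lie_hom A u hm, map_sub, map_smul, hT.hom _ _ _ hm, hT.hom _ _ _ (tdeg_ffmul A hm), e,
      hT.step, smul_smul, zpow_sub_one₀ hF]
    push_cast
    have e2 : ff A * g * (ff A ^ (m + p) * (ff A)⁻¹) = g * ff A ^ (m + p) := by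
      field_simp
    rw [e2, sub_self]

theorem red (hgrd : S_grd) (hu : NonRes u) (p : ℤ) : ∀ g ∈ OO A, ∃ M : ℤ, ∀ m0 ≤ M,
    ∃ h ∈ OO A, ∃ g' ∈ OO A, TDeg m0 g' ∧ g = lie A u p h + g' := by
  refine hom_induction A hgrd ?_ ?_ ?_
  · exact ⟨0, fun m0 _ => ⟨0, (OO A).zero_mem, 0, (OO A).zero_mem, tdeg_zero _, by
      rw [lie_zero, add_zero]⟩⟩
  · rintro a b ⟨M, hM⟩ ⟨M', hM'⟩
    refine ⟨min M M', fun m0 hm0 => ?_⟩
    obtain ⟨h, hh, g, hg, hgm, rfl⟩ := hM m0 (hm0.trans (min_le_left _ _))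
    obtain ⟨h', hh', g', hg', hgm', rfl⟩ := hM' m0 (hm0.trans (min_le_right _ _))
    refine ⟨h + h', (OO A).add_mem hh hh', g + g', (OO A).add_mem hg hg', tdeg_add hgm hgm', ?_⟩
    rw [lie_add]
    ring
  · intro m g hg hm
    refine ⟨m, fun m0 hm0 => ?_⟩
    induction m0, hm0 using Int.leInductionDown with
    | base => exact ⟨0, (OO A).zero_mem, g, hg, hm, by rw [lie_zero, zero_add]⟩
    | pred k _ ih =>
      obtain ⟨h, hh, g', hg', hgm, rfl⟩ := ih
      set c : ℂ := (k : ℂ) + p + ∑ j, u j with hc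
      have hc0 : c ≠ 0 := res_ne u hu p k
      refine ⟨h + c⁻¹ • g', (OO A).add_mem hh ((OO A).smul_mem hg' _), c⁻¹ • (ff A * g'),
        (OO A).smul_mem ((OO A).mul_mem (Oo.ff_mem A) hg') _, tdeg_smul _ (tdeg_ffmul A hgm), ?_⟩
      rw [lie_add, lie_smul, lie_hom A u hgm, ← hc, smul_sub, smul_smul, inv_mul_cancel₀ hc0,
        one_smul]
      ring

theorem inj (hind : S_ind) (hgrd : S_grd) (hcol : ∀ j, ∃ i, A i j ≠ 0) (p : ℤ) :
    ∀ h ∈ OO A, lie A u p h = 0 → h = 0 := by
  intro h hh h0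
  have hF := ff_ne A hcol
  obtain ⟨c, hc, rfl⟩ := hgrd A h hh
  let s : ℂ := ∑ j, u j
  let c' : ℤ →₀ Fld d n := c.sum fun q x =>
    Finsupp.single q (((q : ℂ) + p + s) • x) - Finsupp.single (q - 1) (ff A * x)
  have hval : ∀ r, c' r = ((r : ℂ) + p + s) • c r - ff A * c (r + 1) := by
    intro r
    have e1 : c' r = ∑ q ∈ c.support, ((if q = r then ((q : ℂ) + p + s) • c q else 0) -
        (if q = r + 1 then ff A * c q else 0)) := by
      change (c.sum fun q x => Finsupp.single q (((q : ℂ) + p + s) • x) -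
        Finsupp.single (q - 1) (ff A * x)) r = _
      rw [Finsupp.sum, Finsupp.finset_sum_apply]
      refine Finset.sum_congr rfl fun q _ => ?_
      rw [Finsupp.sub_apply, Finsupp.single_apply, Finsupp.single_apply]
      congr 1
      by_cases hq : q = r + 1
      · rw [if_pos hq, if_pos (by omega)]
      · rw [if_neg hq, if_neg (by omega)]
    rw [e1, Finset.sum_sub_distrib, Finset.sum_ite_eq', Finset.sum_ite_eq']
    congr 1
    · split_ifs with h1
      · rfl
      · rw [Finsupp.notMem_support_iff.1 h1, smul_zero]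
    · split_ifs with h1
      · rfl
      · rw [Finsupp.notMem_support_iff.1 h1, mul_zero]
  have hdeg : ∀ q, TDeg q (c' q) := by
    intro q
    rw [hval]
    have h1 := tdeg_smul ((q : ℂ) + p + s) (hc q).2
    have h2 := tdeg_smul (-1) (tdeg_ffmul A (hc (q + 1)).2)
    rw [add_sub_cancel_right] at h2
    have h3 := tdeg_add h1 h2
    rwa [neg_one_smul, ← sub_eq_add_neg] at h3
  have hsum : (c'.sum fun _ x => x) = 0 := by
    have e1 : (c'.sum fun _ x => x) = c.sum fun q x =>
        (((q : ℂ) + p + s) • x) - (ff A * x) := by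
      let Sg : (ℤ →₀ Fld d n) →+ Fld d n := Finsupp.liftAddHom fun _ => AddMonoidHom.id _
      have e2 : ∀ b : ℤ →₀ Fld d n, (b.sum fun _ x => x) = Sg b := fun b => rfl
      have e5 : ∀ (q : ℤ) (x : Fld d n), Sg (Finsupp.single q x) = x := by
        intro q x
        simp [Sg]
      rw [e2]
      change Sg (c.sum fun q x => Finsupp.single q (((q : ℂ) + p + s) • x) -
        Finsupp.single (q - 1) (ff A * x)) = _
      rw [Finsupp.sum, map_sum]
      refine Finset.sum_congr rfl fun q _ => ?_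
      rw [map_sub, e5, e5]
    rw [e1]
    have e3 : (c.sum fun q x => (((q : ℂ) + p + s) • x) - (ff A * x)) =
        lie A u p (c.sum fun _ x => x) := by
      have e4 : ∀ t : Finset ℤ, ∑ q ∈ t, ((((q : ℂ) + p + s) • c q) - (ff A * c q)) =
          lie A u p (∑ q ∈ t, c q) := by
        intro t
        classical
        induction t using Finset.induction_on with
        | empty => rw [Finset.sum_empty, Finset.sum_empty, lie_zero]
        | insert a t ha ih =>
          rw [Finset.sum_insert ha, Finset.sum_insert ha, lie_add, ih, lie_hom A u (hc a).2]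
      exact e4 _
    rw [e3, h0]
  have hc0 : c' = 0 := hind c' hdeg hsum
  have hrec : ∀ r, c (r + 1) ≠ 0 → c r ≠ 0 := by
    intro r hr h1
    have h2 := hval r
    rw [hc0, h1, smul_zero, Finsupp.coe_zero, Pi.zero_apply, zero_sub] at h2
    exact (mul_ne_zero hF hr) (neg_eq_zero.1 h2.symm)
  by_contra hne
  have hsupp : c.support.Nonempty := by
    rw [Finset.nonempty_iff_ne_empty]
    intro h1
    apply hne
    rw [Finsupp.sum, h1, Finset.sum_empty]
  have h3 := c.support.min'_mem hsupp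
  have h4 := hrec (c.support.min' hsupp - 1) (by
    rw [sub_add_cancel]
    exact Finsupp.mem_support_iff.1 h3)
  have h5 := c.support.min'_le _ (Finsupp.mem_support_iff.2 h4)
  omega

end Pool.Agent.Q64.EI.Thc

namespace Pool.Agent.Q64.EI

theorem thc : S_ind → S_grd → S_thc := by
  intro hind hgrd d n A u γ Θ hcol hu hT p
  refine ⟨fun g hg => ⟨fun h0 => ?_, ?_⟩, Thc.inj A u hind hgrd hcol p⟩
  · obtain ⟨M, hM⟩ := Thc.red A u hgrd hu p g hg
    obtain ⟨h, hh, g', hg', hm, rfl⟩ := hM M le_rfl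
    rw [map_add, Thc.van A u hgrd hcol hT p h hh, zero_add, hT.hom _ _ _ hm] at h0
    have h1 : g' = 0 := by
      have h2 := (smul_eq_zero.1 h0).resolve_left (hT.ne _)
      exact (mul_eq_zero.1 h2).resolve_right (zpow_ne_zero _ (ff_ne A hcol))
    exact ⟨h, hh, by rw [h1, add_zero]⟩
  · rintro ⟨h, hh, rfl⟩
    exact Thc.van A u hgrd hcol hT p h hh

end Pool.Agent.Q64.EI
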